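import Mathlib

/-!
A modular complete lattice with few elements above a point: independence of chain steps.
-/

set_option autoImplicit false

namespace Pool.Agent.VarChain

variable {α : Type*} [CompleteLattice α]

/-- monotone sequences above `u` are eventually constant -/
def AccAbove (u : α) : Prop :=
  ∀ f : ℕ → α, Monotone f → (∀ n, u ≤ f n) → ∃ m, ∀ k, m ≤ k → f k = f m

theorem accAbove_top : AccAbove (⊤ : α) := by
  intro f _ h
  refine ⟨0, fun k _ => ?_⟩
  rw [top_le_iff.mp (h k), top_le_iff.mp (h 0)]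

theorem AccAbove.mono {u v : α} (h : AccAbove u) (huv : u ≤ v) : AccAbove v :=
  fun f hf hv => h f hf (fun n => huv.trans (hv n))

/-- two chains that agree after joining with and after meeting with `a` are equal -/
theorem eq_of_inf_sup [IsModularLattice α] {x y a : α} (hxy : x ≤ y)
    (h1 : x ⊔ a = y ⊔ a) (h2 : x ⊓ a = y ⊓ a) : x = y :=
  eq_of_le_of_inf_le_of_le_sup hxy (h2.symm.le.trans inf_le_left) (le_sup_left.trans h1.symm.le)

theorem AccAbove.inf [IsModularLattice α] {u v : α} (hu : AccAbove u) (hv : AccAbove v) :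
    AccAbove (u ⊓ v) := by
  intro f hf h
  obtain ⟨m1, hm1⟩ := hu (fun n => f n ⊔ u) (fun a b hab => sup_le_sup_right (hf hab) u)
    (fun n => le_sup_right)
  obtain ⟨m2, hm2⟩ := hv (fun n => (f n ⊓ u) ⊔ v)
    (fun a b hab => sup_le_sup_right (inf_le_inf_right u (hf hab)) v) (fun n => le_sup_right)
  refine ⟨max m1 m2, fun k hk => ?_⟩
  have hk1 : m1 ≤ k := (le_max_left _ _).trans hk
  have hk2 : m2 ≤ k := (le_max_right _ _).trans hk
  have e1 : f k ⊔ u = f (max m1 m2) ⊔ u := (hm1 k hk1).trans (hm1 _ (le_max_left _ _)).symm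
  have e2 : (f k ⊓ u) ⊔ v = (f (max m1 m2) ⊓ u) ⊔ v :=
    (hm2 k hk2).trans (hm2 _ (le_max_right _ _)).symm
  have hle : f (max m1 m2) ≤ f k := hf hk
  have e3 : f (max m1 m2) ⊓ u = f k ⊓ u := by
    refine eq_of_inf_sup (a := v) (inf_le_inf_right u hle) e2.symm ?_
    have e4 : ∀ n, (f n ⊓ u) ⊓ v = u ⊓ v := by
      intro n
      rw [inf_assoc]
      exact inf_eq_right.mpr (h n)
    rw [e4, e4]
  exact (eq_of_inf_sup hle e1.symm e3).symm

/-- finite meets -/
theorem accAbove_finset [IsModularLattice α] {ι : Type*} (u : ι → α) (hu : ∀ i, AccAbove (u i))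
    (s : Finset ι) : AccAbove (s.inf u) := by
  classical
  induction s using Finset.induction_on with
  | empty => exact accAbove_top
  | insert a s _ ih =>
    rw [Finset.inf_insert]
    exact (hu a).inf ih

/-- Main lattice lemma: if `n 0 ≤ n 1 ≤ …`, `n i ≤ u i`, `¬ n (i+1) ≤ u i`, and monotone sequences
above each `u i` stabilise, then there are at least continuum many elements above `n 0`. -/
theorem exists_injective [IsModularLattice α] (n : ℕ → α) (hn : Monotone n) (u : ℕ → α)
    (h1 : ∀ i, n i ≤ u i) (h2 : ∀ i, ¬ n (i + 1) ≤ u i) (hu : ∀ i, AccAbove (u i)) :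
    ∃ L : Set ℕ → α, Function.Injective L ∧ ∀ S, n 0 ≤ L S := by
  -- stabilisation point for a finite set of indices
  have key : ∀ s : Finset ℕ, ∃ m, ∀ k, m ≤ k → n k ⊔ s.inf u = n m ⊔ s.inf u := by
    intro s
    exact accAbove_finset u hu s (fun k => n k ⊔ s.inf u)
      (fun a b hab => sup_le_sup_right (hn hab) _) (fun k => le_sup_right)
  choose st hst using key
  -- the subsequence, given by finite sets of previously used indices
  let step : Finset ℕ → ℕ := fun s => max (st s) (s.sup id + 1)
  let used : ℕ → Finset ℕ := fun k => Nat.rec ∅ (fun _ s => insert (step s) s) k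
  let g : ℕ → ℕ := fun k => step (used k)
  have hused_succ : ∀ k, used (k + 1) = insert (g k) (used k) := fun k => rfl
  have hused_mem : ∀ k j, j < k → g j ∈ used k := by
    intro k
    induction k with
    | zero => intro j hj; exact absurd hj (Nat.not_lt_zero j)
    | succ k ih =>
      intro j hj
      rw [hused_succ]
      rcases Nat.lt_succ_iff_lt_or_eq.mp hj with h | h
      · exact Finset.mem_insert_of_mem (ih j h)
      · rw [h]; exact Finset.mem_insert_self _ _
  have hused_sub : ∀ k x, x ∈ used k → ∃ j, j < k ∧ g j = x := by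
    intro k
    induction k with
    | zero => intro x hx; exact absurd hx (Finset.notMem_empty x)
    | succ k ih =>
      intro x hx
      rw [hused_succ, Finset.mem_insert] at hx
      rcases hx with rfl | hx
      · exact ⟨k, Nat.lt_succ_self k, rfl⟩
      · obtain ⟨j, hj, hjx⟩ := ih x hx
        exact ⟨j, hj.trans (Nat.lt_succ_self k), hjx⟩
  have hg_lt : ∀ k j, j < k → g j + 1 ≤ g k := by
    intro k j hj
    have : g j ≤ (used k).sup id := Finset.le_sup (f := id) (hused_mem k j hj)
    exact (Nat.succ_le_succ this).trans (le_max_right _ _)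
  have hg_st : ∀ k m, g k ≤ m → n m ⊔ (used k).inf u = n (g k) ⊔ (used k).inf u := by
    intro k m hm
    have hk : st (used k) ≤ g k := le_max_left _ _
    rw [hst (used k) m (hk.trans hm), hst (used k) (g k) hk]
  refine ⟨fun S => ⨅ k ∈ S, u (g k), ?_, ?_⟩
  · have hmem : ∀ (S : Set ℕ) (k : ℕ), k ∈ S ↔ (⨅ j ∈ S, u (g j)) ≤ u (g k) := by
      intro S k
      constructor
      · intro hk
        exact iInf₂_le k hk
      · intro hle
        by_contra hk
        apply h2 (g k)
        have hlow : n (g k + 1) ⊓ (used k).inf u ≤ ⨅ j ∈ S, u (g j) := by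
          refine le_iInf₂ fun j hj => ?_
          rcases lt_trichotomy j k with hjk | hjk | hjk
          · exact inf_le_right.trans (Finset.inf_le (hused_mem k j hjk))
          · exact absurd (hjk ▸ hj) hk
          · exact inf_le_left.trans ((hn (hg_lt j k hjk)).trans (h1 (g j)))
        have hmod : n (g k) ⊔ (n (g k + 1) ⊓ (used k).inf u) ≤ u (g k) :=
          sup_le (h1 _) (hlow.trans hle)
        have heq : n (g k) ⊔ (n (g k + 1) ⊓ (used k).inf u)
            = n (g k + 1) ⊓ (n (g k) ⊔ (used k).inf u) := by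
          rw [inf_comm (n (g k + 1)) ((used k).inf u),
            ← sup_inf_assoc_of_le _ (hn (Nat.le_succ (g k))), inf_comm]
        rw [heq, ← hg_st k (g k + 1) (Nat.le_succ _)] at hmod
        exact (le_inf le_rfl le_sup_left).trans hmod
    intro S T hST
    ext k
    rw [hmem S k, hmem T k]
    exact ⟨fun h => by rw [← (show (⨅ j ∈ S, u (g j)) = ⨅ j ∈ T, u (g j) from hST)]; exact h,
      fun h => by rw [show (⨅ j ∈ S, u (g j)) = ⨅ j ∈ T, u (g j) from hST]; exact h⟩
  · intro S
    exact le_iInf₂ fun j _ => (hn (Nat.zero_le _)).trans (h1 _)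

end Pool.Agent.VarChain
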